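import Mathlib
import Pool.Agent.W5h2.OR.Main

/-!
# One ordinary place of good reduction suffices
-/

set_option autoImplicit false
set_option linter.unusedSectionVars false

open Filter Topology Pool.Agent.W5h2.OR

namespace Pool.Agent.W5h23.OnePlace

variable {ι Var : Type}

/-- `good X` is the set of the places `v` at which the cohomology of `X` has good reduction. Almost all
places are good; the good places of a product are good for the factors, and the Künneth formula for the
slopes holds there; at the good places the Newton polygons lie above the Hodge polygons, with the same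
end points, and the slopes have bounded denominators; for every finite set `F` of places there is an
elliptic curve `E` with bad reduction at all `v ∈ F`. -/
structure IsGood (T : Slopes ι Var) (good : Var → Set ι) : Prop where
  almost : ∀ X, ∀ᶠ v in cofinite, v ∈ good X
  left : ∀ X Y, ∀ v ∈ good (T.prod X Y), v ∈ good X
  right : ∀ X Y, ∀ v ∈ good (T.prod X Y), v ∈ good Y
  kuenneth : ∀ X Y, ∀ v ∈ good (T.prod X Y),
    T.slopes (T.prod X Y) v = conv (T.slopes X v) (T.slopes Y v)
  above : ∀ X, ∀ v ∈ good X, ∀ i, Above (part (T.slopes X v) i) (part (T.weights X) i)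
  denom : ∀ X, ∃ M : ℕ, 0 < M ∧ ∀ v ∈ good X, ∀ a ∈ T.slopes X v, ∃ z : ℤ, M * a.2 = z
  bad : ∀ F : Set ι, F.Finite → ∃ E, T.dim E = 1 ∧ ∀ v ∈ F, v ∉ good E

/-- every `X` has a good place which is ordinary for `H ^ i (X)`, for every `i` -/
def OneEach (T : Slopes ι Var) (good : Var → Set ι) : Prop := ∀ X i, ∃ v ∈ good X, T.OrdAt X i v

/-- every `X` has a good place which is ordinary for all cohomology groups of `X` -/
def OneAll (T : Slopes ι Var) (good : Var → Set ι) : Prop := ∀ X, ∃ v ∈ good X, T.Ord X v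

/-- every `X` has a good place with defect at most `f (dim X) * deg X`, where `f` is sublinear -/
def OneDefect (T : Slopes ι Var) (good : Var → Set ι) : Prop :=
  ∃ f : ℕ → ℝ, Tendsto (fun n => f n / n) atTop (𝓝 0) ∧
    ∀ X, ∃ v ∈ good X, (T.defect X v : ℝ) ≤ f (T.dim X) * T.deg X

/-- every `X` has a good place such that the proportion of the Hodge-Tate weights which are not slopes
is at most `g (dim X)`, where `g` tends to zero -/
def OneWrong (T : Slopes ι Var) (good : Var → Set ι) : Prop :=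
  ∃ g : ℕ → ℝ, Tendsto g atTop (𝓝 0) ∧
    ∀ X, ∃ v ∈ good X, (T.wrong X v : ℝ) ≤ g (T.dim X) * T.deg X

/-- every `X` has a good place such that the distance of the Newton polygon and the Hodge polygon of the
total cohomology is at most `g (dim X) * deg X`, where `g` tends to zero -/
def OneNear (T : Slopes ι Var) (good : Var → Set ι) : Prop :=
  ∃ g : ℕ → ℝ, Tendsto g atTop (𝓝 0) ∧ ∀ X, ∃ v ∈ good X, T.NearAt (g (T.dim X) * T.deg X) X v

variable {T : Slopes ι Var} {good : Var → Set ι}

theorem IsGood.of_pow (hg : IsGood T good) (X : Var) (n : ℕ) {v : ι} (hv : v ∈ good (T.pow X n)) :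
    v ∈ good X ∧ T.slopes (T.pow X n) v = cpow (T.slopes X v) n := by
  induction n with
  | zero => exact ⟨hv, rfl⟩
  | succ n ih =>
    have hv' : v ∈ good (T.prod X (T.pow X n)) := hv
    have h1 := hg.left _ _ v hv'
    obtain ⟨-, h2⟩ := ih (hg.right _ _ v hv')
    refine ⟨h1, ?_⟩
    have h3 := hg.kuenneth _ _ v hv'
    rw [h2] at h3
    exact h3

theorem IsGood.exists_good (hg : IsGood T good) (X : Var) : ∃ M : ℕ, 0 < M ∧ ∀ n, ∀ v ∈ good (T.pow X n),
    v ∈ good X ∧ Good T X n M v := by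
  obtain ⟨M, hM, h⟩ := hg.denom X
  refine ⟨M, hM, fun n v hv => ?_⟩
  obtain ⟨h1, h2⟩ := hg.of_pow X n hv
  exact ⟨h1, hg.above X v h1, h2, h v h1⟩

/-- an ordinary good place of the product is ordinary for the factors -/
theorem IsGood.ord_left (hg : IsGood T good) {X Y : Var} {v : ι} (hv : v ∈ good (T.prod X Y))
    (ho : T.Ord (T.prod X Y) v) : T.Ord X v := by
  have h1 : GAbove (T.slopes X v) (T.weights X) := hg.above X v (hg.left _ _ v hv)
  have h2 : GAbove (T.slopes Y v) (T.weights Y) := hg.above Y v (hg.right _ _ v hv)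
  unfold Slopes.Ord at ho
  rw [hg.kuenneth _ _ v hv, T.weights_prod] at ho
  obtain ⟨a, ha⟩ := Multiset.exists_mem_of_ne_zero (T.nz Y)
  have hj : part (T.weights Y) a.1 ≠ 0 := by
    intro h3
    have h4 : a.2 ∈ part (T.weights Y) a.1 := by
      unfold part
      exact Multiset.mem_map.2 ⟨a, Multiset.mem_filter.2 ⟨ha, rfl⟩, rfl⟩
    rw [h3] at h4
    exact Multiset.notMem_zero _ h4
  refine ext_part fun i => ?_
  by_cases hi : part (T.weights X) i = 0
  · rw [hi]
    have h4 := (h1 i).card_eq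
    rw [hi, Multiset.card_zero] at h4
    exact Multiset.card_eq_zero.1 h4
  · exact (pair h1 h2 hi hj (by rw [ho])).1

/-- one ordinary good place for every `X` of positive dimension -/
theorem IsGood.allOrd (hg : IsGood T good)
    (h : ∀ X, 0 < T.dim X → ∃ v ∈ good X, T.Ord X v) : T.AllOrd {A | A.Infinite} := by
  intro X
  show {v | T.Ord X v}.Infinite
  intro hF
  obtain ⟨E, hE, hb⟩ := hg.bad _ hF
  obtain ⟨v, hv, ho⟩ := h (T.prod X E) (by rw [T.dim_prod, hE]; exact Nat.succ_pos _)
  exact hb v (hg.ord_left hv ho) (hg.right _ _ v hv)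

/-- one place for every degree -/
theorem IsGood.q1_of_oneEach [Infinite ι] (hg : IsGood T good) (h : OneEach T good) :
    T.Q1 {A | A.Infinite} := by
  intro X i
  show {v | T.OrdAt X i v}.Infinite
  intro hF
  by_cases hi : part (T.weights X) i = 0
  · have h1 : ∀ᶠ v in cofinite, T.OrdAt X i v := by
      filter_upwards [T.above X] with v hv
      have h4 := (hv i).card_eq
      unfold Slopes.OrdAt
      rw [hi, Multiset.card_zero] at h4
      rw [hi]
      exact Multiset.card_eq_zero.1 h4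
    have h2 : (Set.univ : Set ι).Finite := by
      refine (hF.union (Filter.eventually_cofinite.1 h1)).subset fun v _ => ?_
      by_cases hv : T.OrdAt X i v
      · exact Or.inl hv
      · exact Or.inr hv
    exact Set.infinite_univ h2
  · obtain ⟨E, hE, hb⟩ := hg.bad _ hF
    obtain ⟨a, ha⟩ := Multiset.exists_mem_of_ne_zero (T.nz E)
    have hj : part (T.weights E) a.1 ≠ 0 := by
      intro h3
      have h4 : a.2 ∈ part (T.weights E) a.1 := by
        unfold part
        exact Multiset.mem_map.2 ⟨a, Multiset.mem_filter.2 ⟨ha, rfl⟩, rfl⟩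
      rw [h3] at h4
      exact Multiset.notMem_zero _ h4
    obtain ⟨v, hv, ho⟩ := h (T.prod X E) (i + a.1)
    have h1 : GAbove (T.slopes X v) (T.weights X) := hg.above X v (hg.left _ _ v hv)
    have h2 : GAbove (T.slopes E v) (T.weights E) := hg.above E v (hg.right _ _ v hv)
    unfold Slopes.OrdAt at ho
    rw [hg.kuenneth _ _ v hv, T.weights_prod] at ho
    exact hb v (pair h1 h2 hi hj ho).1 (hg.right _ _ v hv)

theorem exists_of_infinite (hg : IsGood T good) {X : Var} {p : ι → Prop} (h : {v | p v}.Infinite) :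
    ∃ v ∈ good X, p v := by
  by_contra hc
  push Not at hc
  refine h ((Filter.eventually_cofinite.1 (hg.almost X)).subset fun v hv hv' => hc v hv' hv)

theorem IsGood.oneAll_of (hg : IsGood T good) (h : T.AllOrd {A | A.Infinite}) : OneAll T good :=
  fun X => exists_of_infinite hg (h X)

theorem IsGood.oneEach_of (hg : IsGood T good) (h : T.Q1 {A | A.Infinite}) : OneEach T good :=
  fun X i => exists_of_infinite hg (h X i)

theorem IsGood.defect_ord (hg : IsGood T good) (h : OneDefect T good) (X : Var) (h0 : 0 < T.dim X) :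
    ∃ v ∈ good X, T.Ord X v := by
  obtain ⟨f, hf, h⟩ := h
  obtain ⟨M, hM, hgd⟩ := hg.exists_good X
  obtain ⟨ε, hε, hε2⟩ := exists_eps ((M : ℝ) ^ 2 * T.deg X) (by positivity)
  have h1 := hf.comp (tendsto_mul_succ h0)
  have hd : (0 : ℝ) < T.dim X := by exact_mod_cast h0
  obtain ⟨n, hn⟩ := (h1.eventually (gt_mem_nhds (show (0 : ℝ) < ε / T.dim X by positivity))).exists
  obtain ⟨v, hv, hw⟩ := h (T.pow X n)
  obtain ⟨hv1, hv2⟩ := hgd n v hv
  refine ⟨v, hv1, hv2.ord_of_defect T hM (by rw [mul_left_comm]; exact hε2) (hw.trans ?_)⟩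
  refine mul_le_mul_of_nonneg_right ?_ (Nat.cast_nonneg _)
  rw [dim_pow]
  simp only [Function.comp_apply] at hn
  rw [div_lt_div_iff₀ (by push_cast; positivity) hd] at hn
  push_cast at hn
  have h2 : f ((n + 1) * T.dim X) * T.dim X < (ε * (n + 1)) * T.dim X := by
    calc _ < ε * (((n : ℝ) + 1) * T.dim X) := hn
      _ = _ := by ring
  exact (lt_of_mul_lt_mul_right h2 hd.le).le

theorem IsGood.wrong_ord (hg : IsGood T good) (h : OneWrong T good) (X : Var) (h0 : 0 < T.dim X) :
    ∃ v ∈ good X, T.Ord X v := by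
  obtain ⟨f, hf, h⟩ := h
  obtain ⟨M, hM, hgd⟩ := hg.exists_good X
  obtain ⟨ε, hε, hε2⟩ := exists_eps ((M : ℝ) ^ 4 * kap (T.weights X))
    (mul_nonneg (by positivity) (kap_nonneg _))
  have h1 := hf.comp (tendsto_mul_succ h0)
  obtain ⟨n, hn⟩ := (h1.eventually (gt_mem_nhds hε)).exists
  obtain ⟨v, hv, hw⟩ := h (T.pow X n)
  obtain ⟨hv1, hv2⟩ := hgd n v hv
  refine ⟨v, hv1, hv2.ord_of_wrong T hM (by rw [mul_left_comm]; exact hε2) (hw.trans ?_)⟩
  refine mul_le_mul_of_nonneg_right ?_ (Nat.cast_nonneg _)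
  rw [dim_pow]
  exact hn.le

theorem IsGood.near_ord (hg : IsGood T good) (h : OneNear T good) (X : Var) (h0 : 0 < T.dim X) :
    ∃ v ∈ good X, T.Ord X v := by
  obtain ⟨f, hf, h⟩ := h
  obtain ⟨M, hM, hgd⟩ := hg.exists_good X
  obtain ⟨R, hR0, hR⟩ := exists_abs_bound (T.weights X)
  obtain ⟨ε, hε, hε2⟩ := exists_eps ((M : ℝ) ^ 2 * (4 * T.deg X * R)) (by positivity)
  have h1 := hf.comp (tendsto_mul_succ h0)
  obtain ⟨n, hn⟩ := (h1.eventually (gt_mem_nhds hε)).exists
  obtain ⟨v, hv, hw⟩ := h (T.pow X n)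
  obtain ⟨hv1, hv2⟩ := hgd n v hv
  refine ⟨v, hv1, hv2.ord_of_near T hM hR0 hR (by rw [mul_left_comm]; exact hε2)
    (Near.mono hw ?_)⟩
  refine mul_le_mul_of_nonneg_right ?_ (Nat.cast_nonneg _)
  rw [dim_pow]
  exact hn.le

theorem IsGood.oneDefect_of (h : OneAll T good) : OneDefect T good := by
  refine ⟨fun _ => 0, by simp, fun X => ?_⟩
  obtain ⟨v, hv, ho⟩ := h X
  refine ⟨v, hv, ?_⟩
  rw [ord_defect T ho]
  simp

theorem IsGood.oneWrong_of (h : OneAll T good) : OneWrong T good := by
  refine ⟨fun _ => 0, tendsto_const_nhds, fun X => ?_⟩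
  obtain ⟨v, hv, ho⟩ := h X
  refine ⟨v, hv, ?_⟩
  rw [ord_wrong T ho]
  simp

theorem IsGood.oneNear_of (h : OneAll T good) : OneNear T good := by
  refine ⟨fun _ => 0, tendsto_const_nhds, fun X => ?_⟩
  obtain ⟨v, hv, ho⟩ := h X
  exact ⟨v, hv, ord_near T ho (by simp)⟩

/-- If almost all ordinary places of one `Y` lie in `M` then Q1 is equivalent to Q1 with places in
`M`. -/
theorem q1_iff_meets [Infinite ι] (T : Slopes ι Var) (M : Set ι) (Y : Var)
    (hM : ∀ᶠ v in cofinite, T.Ord Y v → v ∈ M) :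
    T.Q1 {A | A.Infinite} ↔ T.Q1 {A | (A ∩ M).Infinite} := by
  constructor
  · intro h X i
    have h1 := (q1_iff_allOrd T large_infinite).1 h (T.prod X Y)
    show ({v | T.OrdAt X i v} ∩ M).Infinite
    intro hF
    refine h1 ((hF.union (Filter.eventually_cofinite.1 ((ord_prod T X Y).and hM))).subset
      fun v hv => ?_)
    by_cases hc : (T.Ord (T.prod X Y) v → T.Ord X v ∧ T.Ord Y v) ∧ (T.Ord Y v → v ∈ M)
    · obtain ⟨h2, h3⟩ := hc.1 hv
      refine Or.inl ⟨?_, hc.2 h3⟩
      show part (T.slopes X v) i = part (T.weights X) i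
      unfold Slopes.Ord at h2
      rw [h2]
    · exact Or.inr hc
  · intro h X i
    exact (h X i).mono Set.inter_subset_left

/-- **One ordinary place of good reduction suffices.** -/
theorem main [Infinite ι] (T : Slopes ι Var) (good : Var → Set ι) (hg : IsGood T good) :
    (T.Q1 {A | A.Infinite} ↔ OneEach T good) ∧ (T.Q1 {A | A.Infinite} ↔ OneAll T good) ∧
    (T.Q1 {A | A.Infinite} ↔ OneDefect T good) ∧ (T.Q1 {A | A.Infinite} ↔ OneWrong T good) ∧
    (T.Q1 {A | A.Infinite} ↔ OneNear T good) := by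
  have hq := q1_iff_allOrd T (large_infinite (ι := ι))
  refine ⟨⟨hg.oneEach_of, hg.q1_of_oneEach⟩,
    ⟨fun h => hg.oneAll_of (hq.1 h), fun h => hq.2 (hg.allOrd fun X _ => h X)⟩,
    ⟨fun h => IsGood.oneDefect_of (hg.oneAll_of (hq.1 h)),
      fun h => hq.2 (hg.allOrd (hg.defect_ord h))⟩,
    ⟨fun h => IsGood.oneWrong_of (hg.oneAll_of (hq.1 h)),
      fun h => hq.2 (hg.allOrd (hg.wrong_ord h))⟩,
    ⟨fun h => IsGood.oneNear_of (hg.oneAll_of (hq.1 h)),
      fun h => hq.2 (hg.allOrd (hg.near_ord h))⟩⟩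

end Pool.Agent.W5h23.OnePlace
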